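import Pool.Agent.L7h17.OC.Stm

/-!
# Part DIR of project OC
-/

set_option autoImplicit false
set_option linter.all false

open MvPolynomial

namespace Pool.Agent.L7h61.OC
open Pool.Agent.L7h17.OC

/-- The derivative of a polynomial along a line. -/
lemma line_deriv (v w : Fin 3 → ℂ) (s₀ : ℂ) (F : MvPolynomial (Fin 3) ℝ) :
    HasDerivAt (fun s : ℂ => aeval (v + s • w) F)
      (∑ i, w i * aeval (v + s₀ • w) (pderiv i F)) s₀ := by
  induction F using MvPolynomial.induction_on with
  | C a =>
    have h1 : ∀ s : ℂ, aeval (v + s • w) (C a : MvPolynomial (Fin 3) ℝ) = (algebraMap ℝ ℂ a) :=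
      fun s => aeval_C _ a
    have h2 : ∑ i, w i * aeval (v + s₀ • w) (pderiv i (C a : MvPolynomial (Fin 3) ℝ)) = 0 := by
      simp
    rw [h2]
    have h3 : (fun s : ℂ => aeval (v + s • w) (C a : MvPolynomial (Fin 3) ℝ)) =
        fun _ => algebraMap ℝ ℂ a := funext h1
    rw [h3]
    exact hasDerivAt_const _ _
  | add p q hp hq =>
    have h1 : (fun s : ℂ => aeval (v + s • w) (p + q)) =
        fun s => aeval (v + s • w) p + aeval (v + s • w) q := by
      funext s
      rw [map_add]
    have h2 : ∑ i, w i * aeval (v + s₀ • w) (pderiv i (p + q)) =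
        ∑ i, w i * aeval (v + s₀ • w) (pderiv i p) + ∑ i, w i * aeval (v + s₀ • w) (pderiv i q) := by
      rw [← Finset.sum_add_distrib]
      refine Finset.sum_congr rfl fun i _ => ?_
      rw [map_add, map_add]
      ring
    rw [h1, h2]
    exact hp.add hq
  | mul_X p j hp =>
    have h1 : (fun s : ℂ => aeval (v + s • w) (p * X j)) =
        fun s => aeval (v + s • w) p * (v j + s * w j) := by
      funext s
      rw [map_mul, aeval_X]
      rfl
    have h2 : ∑ i, w i * aeval (v + s₀ • w) (pderiv i (p * X j)) =
        (∑ i, w i * aeval (v + s₀ • w) (pderiv i p)) * (v j + s₀ * w j) +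
          aeval (v + s₀ • w) p * w j := by
      have h3 : ∀ i, w i * aeval (v + s₀ • w) (pderiv i (p * X j)) =
          w i * aeval (v + s₀ • w) (pderiv i p) * (v j + s₀ * w j) +
            aeval (v + s₀ • w) p * (if i = j then w i else 0) := by
        intro i
        have h5 : aeval (v + s₀ • w) (X j : MvPolynomial (Fin 3) ℝ) = v j + s₀ * w j := by
          rw [aeval_X]
          rfl
        rw [pderiv_mul, map_add, map_mul, map_mul, h5]
        by_cases hij : i = j
        · subst hij
          rw [pderiv_X_self, map_one, if_pos rfl]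
          ring
        · rw [pderiv_X_of_ne (fun h => hij h.symm), map_zero, if_neg hij]
          ring
      rw [Finset.sum_congr rfl fun i _ => h3 i, Finset.sum_add_distrib, ← Finset.sum_mul,
        ← Finset.mul_sum, Finset.sum_ite_eq' Finset.univ j, if_pos (Finset.mem_univ j)]
    rw [h1, h2]
    have h4 : HasDerivAt (fun s : ℂ => v j + s * w j) (w j) s₀ := by
      simpa using ((hasDerivAt_id s₀).mul_const (w j)).const_add (v j)
    exact hp.mul h4

theorem s_DIR : S_DIR := by
  intro F hF v hv h0
  by_contra hcon
  push Not at hcon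
  apply hF v hv
  refine ⟨h0, fun i => ?_⟩
  have h1 := hcon (Pi.single i 1)
  have h2 := line_deriv v (Pi.single i 1) 0 F
  have h3 := h1.unique h2
  rw [zero_smul, add_zero, Finset.sum_eq_single i] at h3
  · rw [Pi.single_eq_same, one_mul] at h3
    exact h3.symm
  · intro j _ hj
    rw [Pi.single_eq_of_ne hj, zero_mul]
  · intro h
    exact absurd (Finset.mem_univ i) h

end Pool.Agent.L7h61.OC
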