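import Pool.Agent.L7h17.OC.Stm

/-!
# Part SCALE of project OC
-/

set_option autoImplicit false
set_option linter.all false

open MvPolynomial

namespace Pool.Agent.L7h61.OC
open Pool.Agent.L7h17.OC

lemma eval_smul_hom {F : MvPolynomial (Fin 3) ℝ} {n : ℕ} (hF : F.IsHomogeneous n) (c : ℝ)
    (v : Fin 3 → ℝ) : eval (c • v) F = c ^ n * eval v F := by
  rw [eval_eq', eval_eq', Finset.mul_sum]
  refine Finset.sum_congr rfl fun d hd => ?_
  have h1 : ∑ i, d i = n := by
    have h2 := hF (mem_support_iff.1 hd)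
    rw [Finsupp.weight_apply] at h2
    rw [← h2, Finsupp.sum_fintype]
    · simp
    · simp
  have h3 : ∏ i, (c • v) i ^ d i = c ^ n * ∏ i, v i ^ d i := by
    rw [← h1, ← Finset.prod_pow_eq_pow_sum, ← Finset.prod_mul_distrib]
    refine Finset.prod_congr rfl fun i _ => ?_
    rw [Pi.smul_apply, smul_eq_mul, mul_pow]
  rw [h3]
  ring

theorem s_SCALE : S_SCALE := by
  intro F hF h0 v hv
  obtain ⟨hv0, hv1⟩ := hv
  set x := v 0 with hx
  set y := v 1 with hy
  set z := v 2 with hz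
  have hvv : v = ![x, y, z] := by
    ext i
    fin_cases i <;> rfl
  have hr : 0 < x ^ 2 + y ^ 2 := by
    by_contra hle
    have h1 : x = 0 := by nlinarith [sq_nonneg x, sq_nonneg y]
    have h2 : y = 0 := by nlinarith [sq_nonneg x, sq_nonneg y]
    have h3 : v = z • ![0, 0, 1] := by
      rw [hvv, h1, h2]
      ext i
      fin_cases i <;> simp
    have h4 : z ≠ 0 := by
      intro h5
      apply hv0
      rw [h3, h5, zero_smul]
    rw [h3, eval_smul_hom hF] at hv1
    exact mul_ne_zero (pow_ne_zero 8 h4) h0 hv1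
  set r := Real.sqrt (x ^ 2 + y ^ 2) with hrd
  have hr0 : 0 < r := Real.sqrt_pos.2 hr
  have hr2 : r ^ 2 = x ^ 2 + y ^ 2 := Real.sq_sqrt hr.le
  obtain ⟨σ, hσ, hσz⟩ : ∃ σ : ℝ, (σ = 1 ∨ σ = -1) ∧ 0 ≤ σ * z := by
    rcases le_total 0 z with h | h
    · exact ⟨1, Or.inl rfl, by linarith⟩
    · exact ⟨-1, Or.inr rfl, by linarith⟩
  have hσ0 : σ ≠ 0 := by rcases hσ with h | h <;> rw [h] <;> norm_num
  have hσ2 : σ ^ 2 = 1 := by rcases hσ with h | h <;> rw [h] <;> norm_num
  set c := σ / r with hc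
  have hc0 : c ≠ 0 := div_ne_zero hσ0 hr0.ne'
  set w : ℂ := ⟨c * x, c * y⟩ with hw
  have hwn : ‖w‖ = 1 := by
    have h1 : ‖w‖ ^ 2 = 1 := by
      rw [Complex.sq_norm, Complex.normSq_apply, hw]
      show c * x * (c * x) + c * y * (c * y) = 1
      have h2 : c * x * (c * x) + c * y * (c * y) = σ ^ 2 * ((x ^ 2 + y ^ 2) / r ^ 2) := by
        rw [hc]; ring
      rw [h2, hσ2, ← hr2, div_self (pow_ne_zero 2 hr0.ne'), one_mul]
    nlinarith [norm_nonneg w]
  have h1 : Real.cos (Complex.arg w) = c * x := by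
    have := Complex.norm_mul_cos_arg w
    rwa [hwn, one_mul] at this
  have h2 : Real.sin (Complex.arg w) = c * y := by
    have := Complex.norm_mul_sin_arg w
    rwa [hwn, one_mul] at this
  have h3 : c • v = ![Real.cos (Complex.arg w), Real.sin (Complex.arg w), c * z] := by
    rw [h1, h2, hvv]
    ext i
    fin_cases i <;> simp
  refine ⟨c, hc0, Complex.arg w, c * z, ?_, h3, ?_⟩
  · have : c * z = σ * z / r := by rw [hc]; ring
    rw [this]
    exact div_nonneg hσz hr0.le
  · rw [← h3, eval_smul_hom hF, hv1, mul_zero]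

end Pool.Agent.L7h61.OC
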